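import Mathlib
import Pool.Agent.Q265.RL.Final
import Pool.Agent.Q265.RL.Basic
import Pool.Agent.Q265.RL.Hol
import Pool.Agent.Q265.RL.Inner
import Pool.Agent.Q265.RL.AE
import Pool.Agent.Q265.RL.Conj
import Pool.Agent.Q265.RL.Lip
import Pool.Agent.Q265.RL.Real
import Pool.Agent.Q265.RL.PathEq
import Pool.Agent.Q265.RL.PathCont
import Pool.Agent.Q265.RL.PathBound
import Pool.Agent.Q265.RL.Chain
import Pool.Agent.Q265.RL.BS

set_option autoImplicit false

/-!
# MP_f48be4_an: radial limits of series of iterates of an inner function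

Q1 is answered negatively: there are an inner function `f` with `f 0 = 0`, not a rotation, a series
`F = ∑ a_n f^n` analytic in the disc and a point `ξ` of the circle at which all the iterates `f^n` have
radial limits and `∑ a_n f^n(ξ)` converges, while `F` has no radial limit at `ξ`, and is even
unbounded on the radius.
-/

namespace Pool.Agent.Results.MP_f48be4_an.NoRadialLimit

open Filter Topology Complex

/-- `f` has the radial limit `l` at the point `ζ`: `f(r ζ) → l` as `r → 1` from below. -/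
def HasRadialLimit (f : ℂ → ℂ) (ζ l : ℂ) : Prop :=
  Tendsto (fun r : ℝ => f ((r : ℂ) * ζ)) (𝓝[<] 1) (𝓝 l)

/-- `f` is an inner function: analytic from the unit disc to the unit disc, with radial limits of
modulus one at `e^{iθ}` for almost every real `θ`. -/
def IsInner (f : ℂ → ℂ) : Prop :=
  DifferentiableOn ℂ f (Metric.ball 0 1) ∧
    Set.MapsTo f (Metric.ball 0 1) (Metric.ball 0 1) ∧
    ∀ᵐ θ : ℝ, ∃ l : ℂ, ‖l‖ = 1 ∧ HasRadialLimit f (exp ((θ : ℂ) * I)) l

/-- The series `∑_{n ≥ 1} a_n f^n(z)`, where `a k` is the coefficient `a_{k+1}` of the iterate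
`f^{k+1}`. -/
noncomputable def series (f : ℂ → ℂ) (a : ℕ → ℂ) (z : ℂ) : ℂ := ∑' k, a k * f^[k + 1] z

/-- There are an inner function `f` with `f 0 = 0` which is not a rotation, coefficients `a` for which
the series `F = ∑ a_n f^n` converges in the unit disc to an analytic function, and a point `ξ` of the
unit circle such that every iterate of `f` has a radial limit at `ξ` and `∑ a_n f^n(ξ)` converges, but
`F` has no radial limit at `ξ`, and `|F(r ξ)|` is unbounded as `r → 1`. -/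
theorem result : ∃ (f : ℂ → ℂ) (a : ℕ → ℂ) (ξ : ℂ) (l : ℕ → ℂ) (s : ℂ),
    IsInner f ∧ f 0 = 0 ∧
    (¬ ∃ c : ℂ, ‖c‖ = 1 ∧ ∀ z ∈ Metric.ball (0 : ℂ) 1, f z = c * z) ∧
    (∀ z ∈ Metric.ball (0 : ℂ) 1, Summable fun k => a k * f^[k + 1] z) ∧
    DifferentiableOn ℂ (series f a) (Metric.ball 0 1) ∧
    ‖ξ‖ = 1 ∧
    (∀ k, HasRadialLimit (f^[k + 1]) ξ (l k)) ∧
    Tendsto (fun N => ∑ k ∈ Finset.range N, a k * l k) atTop (𝓝 s) ∧
    (¬ ∃ L : ℂ, HasRadialLimit (series f a) ξ L) ∧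
    (∀ K : ℝ, ∃ᶠ r : ℝ in 𝓝[<] 1, K ≤ ‖series f a ((r : ℂ) * ξ)‖) := by
  obtain ⟨f, a, ξ, l, s, h1, h2, h3, h4, h5, h6, h7, h8, h9⟩ :=
    Q265.RL.main Q265.RL.taskBasic Q265.RL.taskHol Q265.RL.taskInner Q265.RL.taskAE
      Q265.RL.taskConj Q265.RL.taskLip Q265.RL.taskReal Q265.RL.taskPathEq Q265.RL.taskPathCont
      Q265.RL.taskPathBound Q265.RL.taskChain Q265.RL.taskBS
  refine ⟨f, a, ξ, l, s, h1, h2, h3, h4, h5, h6, h7, h8, ?_, h9⟩
  rintro ⟨L, hL⟩
  have h10 : ∀ᶠ r : ℝ in 𝓝[<] 1, ‖series f a ((r : ℂ) * ξ)‖ < ‖L‖ + 1 :=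
    hL.norm.eventually_lt_const (by linarith)
  obtain ⟨r, hr, hr'⟩ := ((h9 (‖L‖ + 1)).and_eventually h10).exists
  exact absurd hr (not_le.2 hr')

end Pool.Agent.Results.MP_f48be4_an.NoRadialLimit
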